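import Pool.Agent.H371Z.Inc.Final

set_option autoImplicit false

namespace Pool.Agent.Results.MP_f9e676_co.AIncompatible

open Pool.Agent.H371Z.Inc Filter

/-- For every `s ≥ 1` there is `t₀` such that for all `t ≥ t₀` being 3-wise `s`-intersecting and
being `t`-intersecting are incompatible properties. -/
theorem result (s : ℕ) (hs : 1 ≤ s) : ∃ t0 : ℕ, ∀ t : ℕ, t0 ≤ t →
    liminf (fun n : ℕ => aa s n * bb t n) atTop = liminf (fun n : ℕ => cc s t n) atTop :=
  main s hs

end Pool.Agent.Results.MP_f9e676_co.AIncompatible
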